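import Pool.Agent.RHO.Stmts3

/-!
# MP_ca8ef3_an, stage 2, row HI1: order between `k` and `k1`
-/

set_option autoImplicit false

namespace Pool.Agent.RHO.H18c

open Finset Pool.Agent.RHO

section

variable {ι : Type} [Fintype ι] [DecidableEq ι]

lemma pr_mul (τ a f : Fn ι) : pr (τ * a) f = pr τ (a * f) := by
  simp [pr, mul_assoc]

/-- extension by zero -/
def ext0 (B : Finset ι) (u : (↥B → ZMod 2)) : Pt ι := fun i => if h : i ∈ B then u ⟨i, h⟩ else 0

lemma eq_of_cub_ne {B : Finset ι} {u z : Pt ι} (h : cub B u z ≠ 0) : ∀ i ∈ B, z i = u i := by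
  intro i hi
  have h1 : z i + u i + 1 ≠ 0 := by
    intro h0
    exact h (Finset.prod_eq_zero hi h0)
  have key : ∀ a b : ZMod 2, a + b + 1 ≠ 0 → a = b := by decide
  exact key _ _ h1

end

theorem hi1 (rmb : RMBStmt) (top : TOPStmt) (cel : CELStmt) : HI1Stmt := by
  intro ι _ _ m k k1 τ B hB hk hk1
  obtain ⟨hmono, -, hmon, -, -, -, hcub, -⟩ := rmb ι
  obtain ⟨B', hB', hcard⟩ := Finset.exists_subset_card_eq hk
  have h1 := cel ι (↥B' → ZMod 2) m k k1 k τ (fun u => cub B' (ext0 B' u)) le_rfl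
    (le_trans hk hk1)
    (fun u => by
      have := hcub B' (ext0 B' u)
      rwa [hcard] at this)
    (fun u u' z hu hu' => by
      funext i
      have e1 := eq_of_cub_ne hu i i.2
      have e2 := eq_of_cub_ne hu' i i.2
      simp only [ext0, i.2, dif_pos, Subtype.coe_eta] at e1 e2
      rw [← e1, ← e2])
    (fun u hV => by
      have hm : mon (B \ B') ∈ RM ι (k1 - k) := by
        apply hmono _ _ _ (hmon (B \ B'))
        rw [Finset.card_sdiff_of_subset hB', hcard]
        omega
      have h2 := hV _ hm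
      rw [pr_mul, top ι τ B B' (ext0 B' u) hB hB'] at h2
      exact one_ne_zero h2)
  have hc : Fintype.card (↥B' → ZMod 2) = 2 ^ k := by
    simp [ZMod.card, hcard]
  rwa [hc] at h1

end Pool.Agent.RHO.H18c
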