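import Pool.Agent.RHO.Stmts3

/-!
# MP_ca8ef3_an, stage 2, row HIG: high order
-/

set_option autoImplicit false

namespace Pool.Agent.RHO.H18c

open Finset Pool.Agent.RHO

open Classical in
theorem hig (rmb : RMBStmt) (ord : ORDStmt) (pvb : PVBStmt) (hi1 : HI1Stmt) (hi2 : HI2Stmt) :
    HIGStmt := by
  intro ι _ _ m k k1 τ B hB hk h2k hkB hBm
  obtain ⟨hmono, -, hmon, -, -, -, -, -⟩ := rmb ι
  induction m generalizing τ B with
  | zero =>
    have h1 := hi1 ι 0 k k1 τ B hB hkB (by simpa using hBm)
    simpa using h1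
  | succ m ih =>
    have hpos : (0 : ℝ) ≤ ((m + 1 : ℕ) : ℝ) / 2 ^ (k1 - k) := by positivity
    by_cases hle : B.card ≤ k1
    · have h1 := hi1 ι (m + 1) k k1 τ B hB hkB hle
      linarith
    · push Not at hle
      obtain ⟨-, -, -, hrec, -⟩ := pvb ι m k k1 τ
      obtain ⟨hbad, hlow⟩ := hi2 ι k τ B hB hk hkB
      set c : ℝ := (m : ℝ) / 2 ^ (k1 - k) + (1 - 1 / 2 ^ (m + 1)) ^ (2 ^ k) with hc
      have hc0 : 0 ≤ c := by
        have : (0 : ℝ) ≤ 1 - 1 / 2 ^ (m + 1) := by
          have : (1 : ℝ) / 2 ^ (m + 1) ≤ 1 := by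
            rw [div_le_one (by positivity)]
            exact one_le_pow₀ (by norm_num)
          linarith
        positivity
      set bad : Finset (RM ι k) :=
        univ.filter fun p : RM ι k => ∀ f ∈ RM ι (B.card - k), pr (τ * (p : Fn ι)) f = 0
        with hbaddef
      have hterm : ∀ p : RM ι k, pv m k k1 (τ * (p : Fn ι)) ≤ (if p ∈ bad then 1 else 0) + c := by
        intro p
        by_cases hp : p ∈ bad
        · rw [if_pos hp]
          have := (pvb ι m k k1 (τ * (p : Fn ι))).2.1
          linarith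
        · rw [if_neg hp, zero_add]
          have hnv : ¬ Van (τ * (p : Fn ι)) (B.card - k) := by
            intro hv
            exact hp (by
              rw [hbaddef, Finset.mem_filter]
              exact ⟨Finset.mem_univ _, hv⟩)
          obtain ⟨B2, hB2c, hB2⟩ := ord ι (τ * (p : Fn ι)) (B.card - k) hnv
          have hB2e : B2.card = B.card - k := by
            rcases Nat.lt_or_ge B2.card (B.card - k) with hlt | hge
            · exfalso
              have h3 := hlow p p.2 B2.card hlt (mon B2) (hmon B2)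
              rw [hB2.1] at h3
              exact one_ne_zero h3
            · exact le_antisymm hB2c hge
          have h4 := ih (τ * (p : Fn ι)) B2 hB2 (by omega) (by
            have : k * (m + 1) = k * m + k := by ring
            omega)
          refine le_trans h4 ?_
          rw [hc]
          have h5 : (1 : ℝ) / 2 ^ (m + 1) ≤ 1 / 2 ^ m := by
            apply one_div_le_one_div_of_le (by positivity)
            exact pow_le_pow_right₀ (by norm_num) (by omega)
          have h6 : (0 : ℝ) ≤ 1 - 1 / 2 ^ m := by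
            have : (1 : ℝ) / 2 ^ m ≤ 1 := by
              rw [div_le_one (by positivity)]
              exact one_le_pow₀ (by norm_num)
            linarith
          have h7 : (1 - 1 / 2 ^ m : ℝ) ^ (2 ^ k) ≤ (1 - 1 / 2 ^ (m + 1)) ^ (2 ^ k) :=
            pow_le_pow_left₀ h6 (by linarith) _
          linarith
      have hN : (0 : ℝ) < (Fintype.card (RM ι k) : ℝ) := by
        have : 0 < Fintype.card (RM ι k) := Fintype.card_pos
        exact_mod_cast this
      have hsum : ∑ p : RM ι k, pv m k k1 (τ * (p : Fn ι)) ≤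
          (bad.card : ℝ) + (Fintype.card (RM ι k) : ℝ) * c := by
        calc ∑ p : RM ι k, pv m k k1 (τ * (p : Fn ι))
            ≤ ∑ p : RM ι k, ((if p ∈ bad then (1 : ℝ) else 0) + c) :=
              Finset.sum_le_sum fun p _ => hterm p
          _ = (bad.card : ℝ) + (Fintype.card (RM ι k) : ℝ) * c := by
              rw [Finset.sum_add_distrib, Finset.sum_boole]
              simp
      have hbad2 : (bad.card : ℝ) ≤ (Fintype.card (RM ι k) : ℝ) * (1 / 2 ^ (k1 - k)) := by
        have h8 : (2 : ℝ) ^ (k1 - k) ≤ 2 ^ (B.card - k + 1) :=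
          pow_le_pow_right₀ (by norm_num) (by omega)
        have h9 : (bad.card : ℝ) * 2 ^ (k1 - k) ≤ Fintype.card (RM ι k) :=
          le_trans (mul_le_mul_of_nonneg_left h8 (by positivity)) hbad
        rw [mul_one_div, le_div_iff₀ (by positivity)]
        exact h9
      rw [hrec, div_le_iff₀ hN]
      have h10 : ((m + 1 : ℕ) : ℝ) / 2 ^ (k1 - k) = (m : ℝ) / 2 ^ (k1 - k) + 1 / 2 ^ (k1 - k) := by
        push_cast
        ring
      rw [h10]
      have h11 : ((m : ℝ) / 2 ^ (k1 - k) + 1 / 2 ^ (k1 - k) + (1 - 1 / 2 ^ (m + 1)) ^ (2 ^ k)) *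
          (Fintype.card (RM ι k) : ℝ) = (Fintype.card (RM ι k) : ℝ) * (1 / 2 ^ (k1 - k)) +
            (Fintype.card (RM ι k) : ℝ) * c := by
        rw [hc]
        ring
      rw [h11]
      linarith

end Pool.Agent.RHO.H18c
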