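import Pool.Agent.RHO.Stmts3

/-!
# MP_ca8ef3_an, stage 2, row INV: inverse theorem
-/

set_option autoImplicit false

namespace Pool.Agent.RHO.H18c

open Finset Pool.Agent.RHO

theorem inv (low : LOWStmt) (pts : PTSStmt) (rem : REMStmt) : INVStmt := by
  intro ι _ _ m k t h τ hm hhk ht hnum hpv
  have hl := low ι m k t τ hm (by omega) hnum hpv
  have hd : 3 * k ≤ 4 * k + k * m := by omega
  obtain ⟨Z, hZ, hV⟩ := pts ι k (4 * k + k * m) t h τ hl hhk hd ht
  refine ⟨Z, hZ, rem ι k (4 * k + k * m) t h τ Z hl hhk hd ?_ hZ hV⟩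
  nlinarith [Nat.zero_le t]

end Pool.Agent.RHO.H18c
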