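import Pool.Agent.RHO.Stmts3

/-!
# MP_ca8ef3_an, stage 2, row LOW
-/

set_option autoImplicit false

namespace Pool.Agent.RHO.H18c

open Finset Pool.Agent.RHO

theorem low (rmb : RMBStmt) (ord : ORDStmt) (pvb : PVBStmt) (cell : CELStmt) (hig : HIGStmt) :
    LOWStmt := by
  intro ι _ _ m k t τ hm hk hnum hpv
  obtain ⟨hmono, -, hmon, -, -, -, -, hcel⟩ := rmb ι
  have hq1 : (1 : ℝ) / 2 ^ m ≤ 1 / 2 := by
    apply one_div_le_one_div_of_le (by norm_num)
    calc (2 : ℝ) = 2 ^ 1 := by norm_num
      _ ≤ 2 ^ m := pow_le_pow_right₀ (by norm_num) hm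
  have hq2 : (0 : ℝ) < 1 / 2 ^ m := by positivity
  have hr0 : (0 : ℝ) < 1 - 1 / 2 ^ m := by linarith
  have hr1 : (1 - 1 / 2 ^ m : ℝ) < 1 := by linarith
  constructor
  · intro h hh π S hS
    have h1 := cell ι (↥S) m k (4 * k) h τ (fun v => cel π v) hh (by omega)
      (fun v => hcel h π v)
      (fun v v' z hv hv' => by
        simp only [cel] at hv hv'
        apply Subtype.ext
        by_cases e : π z = (v : Pt (Fin h))
        · by_cases e' : π z = (v' : Pt (Fin h))
          · rw [← e, ← e']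
          · exact absurd (if_neg e') hv'
        · exact absurd (if_neg e) hv)
      (fun v hV => hS v v.2 (fun f hf => hV f (hmono (k - 1) (4 * k - h) (by omega) hf)))
    rw [Fintype.card_coe] at h1
    have h2 : (1 - 1 / 2 ^ m : ℝ) ^ t ≤ (1 - 1 / 2 ^ m) ^ S.card := le_trans hpv h1
    exact (pow_le_pow_iff_right_of_lt_one₀ hr0 hr1).1 h2
  · intro h hh a ha hV
    by_contra hn
    obtain ⟨B, hBc, hB⟩ := ord ι (τ * a) _ hn
    have hkB : k ≤ B.card := by
      by_contra hlt
      push Not at hlt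
      have h3 := hV (mon B) (hmono B.card (k - 1) (by omega) (hmon B))
      rw [hB.1] at h3
      exact one_ne_zero h3
    have h4 := hig ι m k (4 * k - h) (τ * a) B hB hk (by omega) hkB (by omega)
    have h5 := (pvb ι m k (4 * k) τ).2.2.2.2 h (by omega) a ha
    have h6 : (m : ℝ) / 2 ^ (4 * k - h - k) ≤ (m : ℝ) / 2 ^ (2 * k) := by
      apply div_le_div_of_nonneg_left (by positivity) (by positivity)
      exact pow_le_pow_right₀ (by norm_num) (by omega)
    linarith

end Pool.Agent.RHO.H18c
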