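import Pool.Agent.RHO.Stmts3

/-!
# MP_ca8ef3_an, stage 2, row REM: the remainder
-/

set_option autoImplicit false

namespace Pool.Agent.RHO.H18c

open Finset Pool.Agent.RHO

theorem rem (rmb : RMBStmt) (ord : ORDStmt) (top : TOPStmt) : REMStmt := by
  intro ι _ _ k d t h τ Z hlow hhk hkd ht hZ hV
  obtain ⟨hmono, hmul, hmon, -, -, -, hcub, -⟩ := rmb ι
  by_contra hn
  obtain ⟨B, hBd, hB⟩ := ord ι (τ + ind Z) d hn
  have hBgt : d - h < B.card := by
    by_contra hle
    push Not at hle
    have h3 := hV (mon B) (hmono B.card (d - h) hle (hmon B))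
    rw [hB.1] at h3
    exact one_ne_zero h3
  obtain ⟨B', hB', hcard⟩ := Finset.exists_subset_card_eq (s := B) (n := h) (by omega)
  -- a cell without points of Z
  have hex : ∃ u : (↥B' → ZMod 2), ∀ z ∈ Z, (fun i : ↥B' => z i) ≠ u := by
    by_contra hno
    push Not at hno
    have h4 : (univ : Finset (↥B' → ZMod 2)) ⊆ Z.image (fun z => fun i : ↥B' => z i) := by
      intro u _
      obtain ⟨z, hz, hzu⟩ := hno u
      exact Finset.mem_image.2 ⟨z, hz, hzu⟩
    have h5 := le_trans (Finset.card_le_card h4) Finset.card_image_le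
    have h6 : (univ : Finset (↥B' → ZMod 2)).card = 2 ^ h := by
      rw [Finset.card_univ]
      simp [ZMod.card, hcard]
    omega
  obtain ⟨u, hu⟩ := hex
  set u' : Pt ι := fun i => if hi : i ∈ B' then u ⟨i, hi⟩ else 0 with hu'
  have hzero : ind Z * cub B' u' = 0 := by
    funext z
    simp only [Pi.mul_apply, Pi.zero_apply, ind]
    by_cases hz : z ∈ Z
    · rw [if_pos hz, one_mul]
      by_contra hne
      apply hu z hz
      funext i
      have h1 : z i + u' i + 1 ≠ 0 := by
        intro h0
        exact hne (Finset.prod_eq_zero i.2 h0)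
      have key : ∀ a b : ZMod 2, a + b + 1 ≠ 0 → a = b := by decide
      have h2 := key _ _ h1
      rw [h2, hu']
      simp
    · rw [if_neg hz, zero_mul]
  have heq : τ * cub B' u' = (τ + ind Z) * cub B' u' := by
    rw [add_mul, hzero, add_zero]
  have hcub' : cub B' u' ∈ RM ι h := by
    have := hcub B' u'
    rwa [hcard] at this
  have hpr : ∀ f, pr ((τ + ind Z) * cub B' u') f = pr (τ + ind Z) (cub B' u' * f) := by
    intro f
    simp [pr, mul_assoc]
  have hV1 : Van (τ * cub B' u') (k - 1) := by
    intro f hf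
    rw [heq, hpr]
    apply hV
    have h7 := hmul h (k - 1) _ _ hcub' hf
    exact hmono (h + (k - 1)) (d - h) (by omega) h7
  have hV2 := hlow.gap h (by omega) _ hcub' hV1
  have h8 := hV2 (mon (B \ B')) (hmono _ _ (by
    rw [Finset.card_sdiff_of_subset hB', hcard]
    omega) (hmon _))
  rw [heq, hpr, top ι _ B B' u' hB hB'] at h8
  exact one_ne_zero h8

end Pool.Agent.RHO.H18c
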